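import Mathlib

/-!
# MRDP: binomial coefficients, factorials and the product of `1 + (k + 1) t` are Diophantine
-/

set_option autoImplicit false

namespace Pool.Agent.Helper45.MR

open Finset Dioph

/-! ## binomial coefficients -/

theorem sum_lt_pow {u : ℕ} (f : ℕ → ℕ) (k : ℕ) (h : ∀ i < k, f i < u) :
    ∑ i ∈ range k, f i * u ^ i < u ^ k := by
  induction k with
  | zero => simp
  | succ k ih =>
    rw [sum_range_succ]
    have h1 := ih fun i hi => h i (hi.trans (Nat.lt_succ_self k))
    have h2 : f k + 1 ≤ u := h k (Nat.lt_succ_self k)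
    calc ∑ i ∈ range k, f i * u ^ i + f k * u ^ k < u ^ k + f k * u ^ k := by omega
      _ = (f k + 1) * u ^ k := by ring
      _ ≤ u * u ^ k := Nat.mul_le_mul_right _ h2
      _ = u ^ (k + 1) := by ring

theorem choose_eq (n k : ℕ) :
    Nat.choose n k = ((1 + (2 ^ n + 1)) ^ n / (2 ^ n + 1) ^ k) % (2 ^ n + 1) := by
  set u := 2 ^ n + 1 with hu
  have hu0 : 0 < u := Nat.succ_pos _
  have hlt : ∀ i, Nat.choose n i < u := fun i => by
    have := Nat.choose_le_two_pow n i
    omega
  have hsum : ∀ N, n + 1 ≤ N → (1 + u) ^ n = ∑ i ∈ range N, Nat.choose n i * u ^ i := by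
    intro N hN
    rw [add_comm, add_pow]
    have h1 : ∑ m ∈ range (n + 1), u ^ m * 1 ^ (n - m) * (Nat.choose n m : ℕ) =
        ∑ i ∈ range (n + 1), Nat.choose n i * u ^ i :=
      sum_congr rfl fun i _ => by rw [one_pow, mul_one, mul_comm]
    simp only [Nat.cast_id] at h1 ⊢
    refine Eq.trans ?_ ((sum_subset (range_mono hN) fun i _ hi => ?_))
    · exact h1
    · rw [mem_range, not_lt] at hi
      rw [Nat.choose_eq_zero_of_lt (by omega), zero_mul]
  have h := hsum (k + 1 + (n + 1)) (by omega)
  rw [sum_range_add, sum_range_succ] at h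
  have h2 : ∑ x ∈ range (n + 1), Nat.choose n (k + 1 + x) * u ^ (k + 1 + x) =
      u ^ k * (u * ∑ x ∈ range (n + 1), Nat.choose n (k + 1 + x) * u ^ x) := by
    rw [mul_sum, mul_sum]
    exact sum_congr rfl fun i _ => by ring
  have h3 := sum_lt_pow (u := u) (Nat.choose n) k fun i _ => hlt i
  have h4 : (1 + u) ^ n = ∑ i ∈ range k, Nat.choose n i * u ^ i +
      u ^ k * (Nat.choose n k + u * ∑ x ∈ range (n + 1), Nat.choose n (k + 1 + x) * u ^ x) := by
    rw [h, h2]
    ring
  rw [h4, Nat.add_mul_div_left _ _ (pow_pos hu0 k), Nat.div_eq_of_lt h3, zero_add,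
    Nat.add_mul_mod_self_left, Nat.mod_eq_of_lt (hlt k)]

variable {α : Type} {f g : (α → ℕ) → ℕ}

theorem choose_dioph (df : DiophFn f) (dg : DiophFn g) :
    DiophFn fun v => Nat.choose (f v) (g v) := by
  have hu : DiophFn fun v => 2 ^ f v + 1 := add_dioph (pow_dioph (const_dioph 2) df) (const_dioph 1)
  have h := mod_dioph (div_dioph (pow_dioph (add_dioph (const_dioph 1) hu) df) (pow_dioph hu dg)) hu
  have he : (fun v => Nat.choose (f v) (g v)) = fun v =>
      ((1 + (2 ^ f v + 1)) ^ f v / (2 ^ f v + 1) ^ g v) % (2 ^ f v + 1) :=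
    funext fun v => choose_eq (f v) (g v)
  rw [he]
  exact h

/-! ## factorials -/

theorem pow_le_descFactorial (r : ℕ) : ∀ n : ℕ, n ≤ r →
    r * r ^ n ≤ r * r.descFactorial n + n ^ 2 * r ^ n := by
  intro n
  induction n with
  | zero => intro _; simp
  | succ n ih =>
    intro hn
    have h1 := ih (by omega)
    rw [Nat.descFactorial_succ]
    have h2 : r.descFactorial n ≤ r ^ n := Nat.descFactorial_le_pow r n
    obtain ⟨d, hd⟩ : ∃ d, r = n + d := ⟨r - n, by omega⟩
    have h3 : r - n = d := by omega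
    rw [h3]
    have h4 : r * (d * r.descFactorial n) + n * r * r.descFactorial n =
        r * (r * r.descFactorial n) := by
      conv_rhs => rw [show r * (r * r.descFactorial n) = r * ((n + d) * r.descFactorial n) by
        rw [← hd]]
      ring
    have h5 : n * r * r.descFactorial n ≤ n * r * r ^ n := Nat.mul_le_mul_left _ h2
    calc r * r ^ (n + 1) = r * (r * r ^ n) := by ring
      _ ≤ r * (r * r.descFactorial n + n ^ 2 * r ^ n) := Nat.mul_le_mul_left _ h1
      _ = r * (r * r.descFactorial n) + n ^ 2 * r ^ (n + 1) := by ring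
      _ = r * (d * r.descFactorial n) + n * r * r.descFactorial n + n ^ 2 * r ^ (n + 1) := by
          rw [h4]
      _ ≤ r * (d * r.descFactorial n) + n * r * r ^ n + n ^ 2 * r ^ (n + 1) := by omega
      _ = r * (d * r.descFactorial n) + (n + n ^ 2) * r ^ (n + 1) := by ring
      _ ≤ r * (d * r.descFactorial n) + (n + 1) ^ 2 * r ^ (n + 1) := by
          have : n + n ^ 2 ≤ (n + 1) ^ 2 := by nlinarith
          exact Nat.add_le_add_left (Nat.mul_le_mul_right _ this) _

theorem factorial_eq (n : ℕ) :
    n.factorial = ((n + 1) ^ (n + 3)) ^ n / Nat.choose ((n + 1) ^ (n + 3)) n := by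
  set r := (n + 1) ^ (n + 3) with hr
  have hr1 : n + 1 ≤ r := by
    calc n + 1 = (n + 1) ^ 1 := (pow_one _).symm
      _ ≤ (n + 1) ^ (n + 3) := Nat.pow_le_pow_right (by omega) (by omega)
  have hr0 : 0 < r := by omega
  have hbig : n ^ 2 * (n.factorial + 1) < r := by
    have h1 : n.factorial ≤ (n + 1) ^ n :=
      (Nat.factorial_le_pow n).trans (Nat.pow_le_pow_left (by omega) n)
    have h2 : 1 ≤ (n + 1) ^ n := Nat.one_le_pow _ _ (by omega)
    calc n ^ 2 * (n.factorial + 1) ≤ n ^ 2 * (2 * (n + 1) ^ n) :=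
          Nat.mul_le_mul_left _ (by omega)
      _ = (2 * n ^ 2) * (n + 1) ^ n := by ring
      _ < (n + 1) ^ 3 * (n + 1) ^ n := by
          refine Nat.mul_lt_mul_of_pos_right ?_ (by omega)
          nlinarith [Nat.zero_le n, Nat.zero_le (n ^ 3)]
      _ = r := by rw [hr]; ring
  have hd : r.descFactorial n = n.factorial * Nat.choose r n :=
    Nat.descFactorial_eq_factorial_mul_choose r n
  have hc0 : 0 < Nat.choose r n := Nat.choose_pos (by omega)
  symm
  rw [Nat.div_eq_iff hc0]
  constructor
  · rw [← hd]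
    exact Nat.descFactorial_le_pow r n
  · have h1 := pow_le_descFactorial r n (by omega)
    -- `n! (r ^ n - (r)_n) < (r)_n`
    by_contra hcon
    have hcon2 : (n.factorial + 1) * Nat.choose r n ≤ r ^ n := by
      rw [not_le] at hcon
      have : n.factorial * Nat.choose r n + Nat.choose r n ≤ r ^ n := by omega
      linarith
    have h3 : (n.factorial + 1) * r.descFactorial n ≤ n.factorial * r ^ n := by
      rw [hd]
      calc (n.factorial + 1) * (n.factorial * Nat.choose r n)
          = n.factorial * ((n.factorial + 1) * Nat.choose r n) := by ring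
        _ ≤ n.factorial * r ^ n := Nat.mul_le_mul_left _ hcon2
    have h4 : (n.factorial + 1) * (r * r ^ n) ≤
        n.factorial * (r * r ^ n) + (n.factorial + 1) * (n ^ 2 * r ^ n) := by
      calc (n.factorial + 1) * (r * r ^ n)
          ≤ (n.factorial + 1) * (r * r.descFactorial n + n ^ 2 * r ^ n) :=
            Nat.mul_le_mul_left _ h1
        _ = r * ((n.factorial + 1) * r.descFactorial n) +
            (n.factorial + 1) * (n ^ 2 * r ^ n) := by ring
        _ ≤ r * (n.factorial * r ^ n) + (n.factorial + 1) * (n ^ 2 * r ^ n) :=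
            Nat.add_le_add_right (Nat.mul_le_mul_left _ h3) _
        _ = _ := by ring
    have h5 : r * r ^ n ≤ (n.factorial + 1) * (n ^ 2 * r ^ n) := by
      have : (n.factorial + 1) * (r * r ^ n) = n.factorial * (r * r ^ n) + r * r ^ n := by ring
      omega
    have h6 : (n.factorial + 1) * (n ^ 2 * r ^ n) < r * r ^ n := by
      calc (n.factorial + 1) * (n ^ 2 * r ^ n) = (n ^ 2 * (n.factorial + 1)) * r ^ n := by ring
        _ < r * r ^ n := Nat.mul_lt_mul_of_pos_right hbig (pow_pos hr0 n)
    omega

theorem factorial_dioph (df : DiophFn f) : DiophFn fun v => (f v).factorial := by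
  have h1 : DiophFn fun v => (f v + 1) ^ (f v + 3) :=
    pow_dioph (add_dioph df (const_dioph 1)) (add_dioph df (const_dioph 3))
  have h := div_dioph (pow_dioph h1 df) (choose_dioph h1 df)
  have he : (fun v => (f v).factorial) = fun v =>
      ((f v + 1) ^ (f v + 3)) ^ f v / Nat.choose ((f v + 1) ^ (f v + 3)) (f v) :=
    funext fun v => factorial_eq (f v)
  rw [he]
  exact h

theorem descFactorial_dioph (df : DiophFn f) (dg : DiophFn g) :
    DiophFn fun v => (f v).descFactorial (g v) := by
  have h := mul_dioph (factorial_dioph dg) (choose_dioph df dg)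
  have he : (fun v => (f v).descFactorial (g v)) = fun v =>
      (g v).factorial * Nat.choose (f v) (g v) :=
    funext fun v => Nat.descFactorial_eq_factorial_mul_choose (f v) (g v)
  rw [he]
  exact h

/-! ## the product of `1 + (k + 1) t` -/

theorem prod_eq {n t : ℕ} (ht : 0 < t) :
    ∏ k ∈ range n, (1 + (k + 1) * t) =
      (t ^ n * (n.factorial * Nat.choose (t * (1 + n * t) ^ n * (1 + n * t) ^ n + n) n)) %
        (t * (1 + n * t) ^ n + 1) := by
  set X := (1 + n * t) ^ n with hX
  set M := t * X + 1 with hM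
  have hX0 : 0 < X := pow_pos (by omega) n
  have hP : ∏ k ∈ range n, (1 + (k + 1) * t) < M := by
    have h1 : ∏ k ∈ range n, (1 + (k + 1) * t) ≤ ∏ _k ∈ range n, (1 + n * t) := by
      refine prod_le_prod' fun k hk => ?_
      rw [mem_range] at hk
      have : (k + 1) * t ≤ n * t := Nat.mul_le_mul_right t hk
      omega
    rw [prod_const, card_range, ← hX] at h1
    have : X ≤ t * X := Nat.le_mul_of_pos_left X ht
    omega
  have hq : t * (t * X * X) ≡ 1 [MOD M] := by
    have h1 : t * (t * X * X) = (t * X) * (t * X) := by ring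
    rw [h1]
    have h2 : (t * X) * (t * X) + M * 1 = 1 + M * (t * X) := by
      rw [hM]; ring
    have h3 : (t * X) * (t * X) + M * 1 ≡ (t * X) * (t * X) [MOD M] := by
      simp [Nat.ModEq]
    have h4 : 1 + M * (t * X) ≡ 1 [MOD M] := by
      simp [Nat.ModEq]
    rw [h2] at h3
    exact h3.symm.trans h4
  have hmod : t ^ n * (n.factorial * Nat.choose (t * X * X + n) n) ≡
      ∏ k ∈ range n, (1 + (k + 1) * t) [MOD M] := by
    have h1 : n.factorial * Nat.choose (t * X * X + n) n = ∏ k ∈ range n, (t * X * X + (k + 1)) := by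
      rw [← Nat.descFactorial_eq_factorial_mul_choose, Nat.add_descFactorial_eq_ascFactorial,
        Nat.ascFactorial_eq_prod_range]
      exact prod_congr rfl fun k _ => by ring
    rw [h1, ← card_range n, ← prod_const, card_range, ← prod_mul_distrib]
    refine Nat.ModEq.prod fun k _ => ?_
    rw [mul_add]
    have := hq.add_right (t * (k + 1))
    rw [mul_comm t (k + 1)] at this ⊢
    exact this
  have h2 := hmod
  rw [Nat.ModEq, Nat.mod_eq_of_lt hP] at h2
  exact h2.symm

theorem prod_dioph (df : DiophFn f) (dg : DiophFn g) (hg : ∀ v, 0 < g v) :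
    DiophFn fun v => ∏ k ∈ range (f v), (1 + (k + 1) * g v) := by
  have hX : DiophFn fun v => (1 + f v * g v) ^ f v :=
    pow_dioph (add_dioph (const_dioph 1) (mul_dioph df dg)) df
  have hTX := mul_dioph dg hX
  have h := mod_dioph (mul_dioph (pow_dioph dg df) (mul_dioph (factorial_dioph df)
    (choose_dioph (add_dioph (mul_dioph hTX hX) df) df))) (add_dioph hTX (const_dioph 1))
  have he : (fun v => ∏ k ∈ range (f v), (1 + (k + 1) * g v)) = fun v =>
      (g v ^ f v * ((f v).factorial * Nat.choose (g v * (1 + f v * g v) ^ f v *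
        (1 + f v * g v) ^ f v + f v) (f v))) % (g v * (1 + f v * g v) ^ f v + 1) :=
    funext fun v => prod_eq (hg v)
  rw [he]
  exact h

end Pool.Agent.Helper45.MR
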